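import Pool.Agent.H.MP_567c26_al.Def
import Pool.Agent.H.MP_e43f0d_lc.Def

/-! Quasi-automatic and asynchronously automatic semigroups. -/

namespace Pool.Agent.H.MP_7f7674_al

open Pool.Agent.H.MP_567c26_al (mu Onto Rel)
open Pool.Agent.H.MP_e43f0d_lc (Rational)

/-- Accepting runs of a deterministic 2-tape automaton: `tape q` tells which tape the state `q`
reads (`true` is the first), `δ` is the transition function and `F` the set of final states. -/
inductive DRun {σ X : Type} (tape : σ → Bool) (δ : σ → X → Option σ) (F : Set σ) :
    σ → List X → List X → Prop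
  | done {q : σ} : q ∈ F → DRun tape δ F q [] []
  | left {q q' : σ} {c : X} {x y : List X} : tape q = true → δ q c = some q' →
      DRun tape δ F q' x y → DRun tape δ F q (c :: x) y
  | right {q q' : σ} {c : X} {x y : List X} : tape q = false → δ q c = some q' →
      DRun tape δ F q' x y → DRun tape δ F q x (c :: y)

/-- `R` is recognized by a deterministic 2-tape automaton. -/
def Det {X : Type} (R : List X → List X → Prop) : Prop :=
  ∃ (σ : Type) (_ : Finite σ) (s : σ) (tape : σ → Bool) (δ : σ → X → Option σ) (F : Set σ),
    ∀ x y, DRun tape δ F s x y ↔ R x y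

/-- The relation `R$`; the end symbol `$` is `none`. -/
def Dollar {A : Type} (R : List A → List A → Prop) (x y : List (Option A)) : Prop :=
  ∃ u v, R u v ∧ x = u.map some ++ [none] ∧ y = v.map some ++ [none]

/-- `(g, L)` is a quasi-automatic structure for `S`. -/
def QAS {A S : Type} [Semigroup S] (g : A → S) (L : List A → Prop) : Prop :=
  Language.IsRegular {u | L u} ∧ Onto g L ∧ Rational (Rel g L []) ∧ ∀ a, Rational (Rel g L [a])

/-- `S` is quasi-automatic; if `P` holds, distinct letters must name distinct elements. -/
def QA (P : Prop) (S : Type) [Semigroup S] : Prop :=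
  ∃ (A : Type) (_ : Finite A) (g : A → S) (L : List A → Prop),
    (P → Function.Injective g) ∧ QAS g L

/-- `S` is asynchronously automatic; `P` as above. -/
def Async (P : Prop) (S : Type) [Semigroup S] : Prop :=
  ∃ (A : Type) (_ : Finite A) (g : A → S) (L : List A → Prop), (P → Function.Injective g) ∧
    Language.IsRegular {u | L u} ∧ Onto g L ∧ Det (Dollar (Rel g L [])) ∧
      ∀ a, Det (Dollar (Rel g L [a]))

end Pool.Agent.H.MP_7f7674_al
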