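import Pool.Agent.H.MP_e43f0d_lc.C
import Pool.Agent.H.MP_7f7674_al.Def

/-! Criteria for recognizability by deterministic 2-tape automata. -/

namespace Pool.Agent.H.MP_7f7674_al

open Pool.Agent.Lib.helper21.Cone Pool.Agent.Lib.RegKit Pool.Agent.H.MP_567c26_al
  Pool.Agent.H.MP_e43f0d_lc Function Classical

variable {X Z A : Type}

def PD (L : List (X ⊕ X) → Prop) : Prop :=
  ∀ w a b w1 w2, L (w ++ .inl a :: w1) → ¬L (w ++ .inr b :: w2)

theorem det_of {L : List (X ⊕ X) → Prop} (r : Reg L) (h : PD L) :
    Det fun x y => ∃ w, L w ∧ lefts w = x ∧ rights w = y := by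
  obtain ⟨σ, _, δ, s, F, e⟩ := reg_iff.1 r
  let tp : σ → Bool := fun q => decide (∃ a, ∃ w : List (X ⊕ X), F (w.foldl δ (δ q (.inl a))))
  refine ⟨σ, inferInstance, s, tp, fun q c => some (δ q (if tp q then .inl c else .inr c)),
    {q | F q}, fun x y => ⟨fun g => ?_, ?_⟩⟩
  · have : ∀ {q x y}, DRun tp (fun q c => some (δ q (if tp q then .inl c else .inr c))) {q | F q}
        q x y → ∃ w : List (X ⊕ X), F (w.foldl δ q) ∧ lefts w = x ∧ rights w = y := by
      intro q x y g
      induction g with
      | done g => exact ⟨[], g, rfl, rfl⟩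
      | @left _ _ c _ _ a b _ ih =>
        obtain ⟨w, k, rfl, rfl⟩ := ih
        obtain rfl := Option.some.inj b
        exact ⟨.inl c :: w, by simpa [a] using k, rfl, rfl⟩
      | @right _ _ c _ _ a b _ ih =>
        obtain ⟨w, k, rfl, rfl⟩ := ih
        obtain rfl := Option.some.inj b
        exact ⟨.inr c :: w, by simpa [a] using k, rfl, rfl⟩
    exact (this g).imp fun w k => ⟨(e w).2 k.1, k.2⟩
  · rintro ⟨w, g, rfl, rfl⟩
    have : ∀ w p : List (X ⊕ X), L (p ++ w) → DRun tp (fun q c => some (δ q (if tp q then .inl c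
        else .inr c))) {q | F q} (p.foldl δ s) (lefts w) (rights w) := by
      intro w
      induction w with
      | nil => exact fun p g => .done ((e _).1 (List.append_nil p ▸ g :))
      | cons c w ih =>
        intro p g
        have k := ih (p ++ [c]) (by simpa using g)
        rw [List.foldl_append] at k
        rcases c with c | c
        · have t : tp (p.foldl δ s) = true := decide_eq_true ⟨c, w, by simpa using (e _).1 g⟩
          exact .left t (by simp [t]) k
        · have t : tp (p.foldl δ s) = false := decide_eq_false fun ⟨a, w', k'⟩ =>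
            h p a c w' w ((e _).2 (by simpa using k')) g
          exact .right t (by simp [t]) k
    exact this w [] g

@[simp] theorem ll (x : List X) : lefts (x.map (Sum.inl (β := X))) = x := by
  simp [lefts, List.filterMap_map]
@[simp] theorem lr' (x : List X) : lefts (x.map (Sum.inr (α := X))) = [] := by
  simp [lefts, List.filterMap_map]
@[simp] theorem rl (x : List X) : rights (x.map (Sum.inl (β := X))) = [] := by
  simp [rights, List.filterMap_map]
@[simp] theorem rr (x : List X) : rights (x.map (Sum.inr (α := X))) = x := by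
  simp [rights, List.filterMap_map]

def om (h g : Z → List A) : Z ⊕ Z → List (A ⊕ A)
  | .inl z => (h z).map .inl
  | .inr z => (g z).map .inr

theorem lefts_om (h g : Z → List A) (w : List (Z ⊕ Z)) :
    lefts (w.flatMap (om h g)) = (lefts w).flatMap h := by
  induction w with
  | nil => rfl
  | cons a w ih => cases a <;> simp [om, ih]

theorem rights_om (h g : Z → List A) (w : List (Z ⊕ Z)) :
    rights (w.flatMap (om h g)) = (rights w).flatMap g := by
  induction w with
  | nil => rfl
  | cons a w ih => cases a <;> simp [om, ih]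

theorem pd_lift {L : List (Z ⊕ Z) → Prop} (h : PD L) (E : Z → List X)
    (hc : ∀ p x x' z z', L (p ++ x :: z) → L (p ++ x' :: z') → om E E x <+: om E E x' → x = x') :
    PD fun v => ∃ w, L w ∧ w.flatMap (om E E) = v := by
  have key : ∀ (z z' p : List (Z ⊕ Z)) w a b w1 w2, L (p ++ z) → L (p ++ z') →
      z.flatMap (om E E) = w ++ .inl a :: w1 → z'.flatMap (om E E) = w ++ .inr b :: w2 → False := by
    intro z
    induction z with
    | nil => intro _ _ _ _ _ _ _ _ _ e; simp at e
    | cons x z ih =>
      rintro (_ | ⟨x', z'⟩) p w a b w1 w2 g g' e e'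
      · simp at e'
      rw [List.flatMap_cons] at e e'
      rcases List.append_eq_append_iff.1 e with ⟨t, rfl, k⟩ | ⟨t, k1, k⟩
      · rcases List.append_eq_append_iff.1 e' with ⟨t', k1', k'⟩ | ⟨t', k1', k'⟩
        · obtain rfl : x = x' := by
            rcases List.prefix_or_prefix_of_prefix ⟨_, rfl⟩ ⟨_, k1'.symm⟩ with c | c
            exacts [hc _ _ _ _ _ g g' c, (hc _ _ _ _ _ g' g c).symm]
          obtain rfl := List.append_cancel_left k1'
          exact ih z' (p ++ [x]) t a b w1 w2 (by simpa using g) (by simpa using g') k k'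
        · obtain rfl := hc _ _ _ _ _ g g' ⟨t ++ t', by rw [k1', List.append_assoc]⟩
          obtain ⟨rfl, rfl⟩ : t = [] ∧ t' = [] := by simpa using k1'
          exact ih z' (p ++ [x]) [] a b w1 w2 (by simpa using g) (by simpa using g') k k'.symm
      · rcases List.append_eq_append_iff.1 e' with ⟨t', rfl, k'⟩ | ⟨t', k1', k'⟩
        · obtain rfl := hc _ _ _ _ _ g' g ⟨t' ++ t, by rw [k1, List.append_assoc]⟩
          obtain ⟨rfl, rfl⟩ : t' = [] ∧ t = [] := by simpa using k1
          exact ih z' (p ++ [x']) [] a b w1 w2 (by simpa using g) (by simpa using g') k.symm k'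
        · rcases t with _ | ⟨c, t⟩
          · obtain rfl := hc _ _ _ _ _ g g' ⟨t', by rw [k1', k1, List.append_nil]⟩
            obtain rfl : t' = [] := by simpa [k1] using k1'
            exact ih z' (p ++ [x]) [] a b w1 w2 (by simpa using g) (by simpa using g') k.symm k'.symm
          rcases t' with _ | ⟨c', t'⟩
          · obtain rfl := hc _ _ _ _ _ g' g ⟨c :: t, by rw [k1', k1, List.append_nil]⟩
            simp [k1] at k1'
          obtain rfl : .inl a = c := (List.cons.inj k).1
          obtain rfl : .inr b = c' := (List.cons.inj k').1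
          have m : Sum.inl a ∈ om E E x := by simp [k1]
          have m' : Sum.inr b ∈ om E E x' := by simp [k1']
          rcases x with x | x <;> rcases x' with x' | x' <;> simp [om] at m m'
          exact h _ _ _ _ _ g g'
  rintro w a b w1 w2 ⟨z, g, e⟩ ⟨z', g', e'⟩
  exact key z z' [] w a b w1 w2 g g' e e'

theorem sched [Finite Z] [Finite A] {V : List Z → Prop} (r : Reg V)
    (pf : ∀ x y, V x → V (x ++ y) → y = []) (h g : Z → List A) :
    ∃ L : List (Z ⊕ Z) → Prop, Reg L ∧ PD L ∧ ∀ x y, (∃ w, L w ∧ lefts w = x ∧ rights w = y) ↔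
      V x ∧ V y ∧ x.flatMap h = y.flatMap g := by
  obtain ⟨n, ⟨ε⟩⟩ := Finite.exists_equiv_fin A
  let _ := LinearOrder.lift' ε ε.injective
  obtain ⟨K, hK⟩ := exists_bound (om h g)
  let In : List (A ⊕ A) → Prop := fun w => ∀ x, x <+: w → -K ≤ lag x ∧ lag x ≤ K
  have rb := fun T => reg_pre (om h g) (reg_buf (A := A) K (fun d => -K ≤ d ∧ d ≤ K) (fun _ h => h) T)
  let Sd : List (Z ⊕ Z) → Prop := fun w => ¬V (lefts w) ∧
    ((In (w.flatMap (om h g)) ∧ 0 ≤ lag (w.flatMap (om h g))) ∨ V (rights w))
  have rs : Reg Sd := (pre_l r).not.and ((rb fun d _ => 0 ≤ d).or (pre_r r))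
  have rh : ∀ b : Bool, Reg fun y : List (Z ⊕ Z) => ∃ c t, y = c :: t ∧ c.isLeft = b := fun b =>
    (reg_ex fun c : {c : Z ⊕ Z // c.isLeft = b} => Reg.cons (P := fun _ => True) reg_univ c.1).congr
      fun _ => ⟨fun ⟨c, t, _, e⟩ => ⟨c, t, e, c.2⟩, fun ⟨c, t, e, k⟩ => ⟨⟨c, k⟩, t, trivial, e⟩⟩
  refine ⟨_, ((pre_l r).and (pre_r r)).and (((rb fun _ p => ¬p).and (reg_pre (om h g) (pre_sw
    (reg_buf (A := A) K (fun d => -K ≤ d ∧ d ≤ K) (fun _ h => h) fun _ p => ¬p)))).and
      ((reg_app rs (rh false)).or (reg_app rs.not (rh true))).not), ?_, fun x y => ⟨?_, ?_⟩⟩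
  · rintro w a b w1 w2 ⟨-, -, k⟩ ⟨-, -, k'⟩
    by_cases s : Sd w
    exacts [k' (Or.inl ⟨_, _, rfl, s, _, _, rfl, rfl⟩), k (Or.inr ⟨_, _, rfl, s, _, _, rfl, rfl⟩)]
  · rintro ⟨w, ⟨⟨a, b⟩, ⟨⟨-, c⟩, -, d⟩, -⟩, rfl, rfl⟩
    rw [lefts_sw, rights_sw] at d
    exact ⟨a, b, by rw [← lefts_om h g, ← rights_om h g]; exact le_antisymm (not_lt.1 c) (not_lt.1 d)⟩
  rintro ⟨hx, hy, e⟩
  have key : ∀ n (p : List (Z ⊕ Z)) (x2 y2 : List Z), x2.length + y2.length = n →
      lefts p ++ x2 = x → rights p ++ y2 = y → In (p.flatMap (om h g)) →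
      (∀ p1 c t, p = p1 ++ c :: t → (Sd p1 ↔ c.isLeft = true)) → ∃ w, lefts w = x ∧ rights w = y ∧
        In (w.flatMap (om h g)) ∧ ∀ p1 c t, w = p1 ++ c :: t → (Sd p1 ↔ c.isLeft = true) := by
    intro n
    induction n with
    | zero =>
      intro p x2 y2 a b c d f
      obtain ⟨rfl, rfl⟩ : x2 = [] ∧ y2 = [] := by simpa using a
      exact ⟨p, by simpa using b, by simpa using c, d, f⟩
    | succ n ih =>
      intro p x2 y2 a b c d f
      have ext : ∀ z : Z ⊕ Z, (Sd p ↔ z.isLeft = true) →
          ∀ p1 c t, p ++ [z] = p1 ++ c :: t → (Sd p1 ↔ c.isLeft = true) := by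
        intro z k p1 c t e
        rcases t.eq_nil_or_concat with rfl | ⟨t, z', rfl⟩
        · obtain ⟨rfl, e'⟩ := List.append_inj' e rfl
          exact (List.cons.inj e').1 ▸ k
        · rw [List.concat_eq_append, ← List.cons_append, ← List.append_assoc] at e
          exact f p1 c t (List.append_inj' e rfl).1
      have d0 := d _ List.prefix_rfl
      have l0 := congrArg List.length e
      rw [← b, ← c, List.flatMap_append, List.flatMap_append, List.length_append,
        List.length_append, ← lefts_om h g, ← rights_om h g] at l0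
      by_cases s : Sd p
      · rcases x2 with _ | ⟨z, x2⟩
        · exact (s.1 (by simpa [← b] using hx)).elim
        refine ih (p ++ [.inl z]) x2 y2 (by simp at a; omega) (by simpa using b) (by simpa using c)
          (fun t k => ?_) (ext _ (by simpa using s))
        rw [List.flatMap_append, List.flatMap_singleton] at k
        rcases List.prefix_or_prefix_of_prefix k (List.prefix_append _ _) with k' | ⟨t, rfl⟩
        · exact d t k'
        obtain ⟨t', k2, rfl⟩ := List.prefix_map_iff.1 ((List.prefix_append_right_inj _).1 k)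
        have := k2.length_le
        have := hK (.inl z)
        have : lag (t'.map .inl) = -(t'.length : ℤ) := by simp [lag]
        rw [lag_app]
        simp only [om, List.length_map, List.flatMap_cons, List.length_append] at *
        rcases s.2 with s | s
        · have := s.2
          omega
        · obtain rfl := pf _ _ s (c ▸ hy)
          simp only [lag, List.flatMap_nil, List.length_nil] at *
          omega
      · rcases y2 with _ | ⟨z, y2⟩
        · rcases x2 with _ | ⟨z, x2⟩
          · simp at a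
          · exact (s ⟨fun k => List.cons_ne_nil _ _ (pf _ _ k (b ▸ hx)), Or.inr (by simpa [← c] using hy)⟩).elim
        refine ih (p ++ [.inr z]) x2 y2 (by simp at a; omega) (by simpa using b) (by simpa using c)
          (fun t k => ?_) (ext _ (by simpa using s))
        rw [List.flatMap_append, List.flatMap_singleton] at k
        rcases List.prefix_or_prefix_of_prefix k (List.prefix_append _ _) with k' | ⟨t, rfl⟩
        · exact d t k'
        obtain ⟨t', k2, rfl⟩ := List.prefix_map_iff.1 ((List.prefix_append_right_inj _).1 k)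
        have := k2.length_le
        have := hK (.inr z)
        have : lag (t'.map .inr) = (t'.length : ℤ) := by simp [lag]
        rw [lag_app]
        by_cases s' : V (lefts p)
        · obtain rfl := pf _ _ s' (b ▸ hx)
          simp only [om, List.length_map, List.flatMap_cons, List.length_append, lag,
            List.flatMap_nil, List.length_nil] at *
          omega
        · have := mt (fun k => (⟨s', Or.inl ⟨d, k⟩⟩ : Sd p)) s
          have : (g z).length ≤ K := by simpa [om] using hK (.inr z)
          omega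
  obtain ⟨w, rfl, rfl, a, b⟩ := key _ [] x y rfl rfl rfl
    (fun t k => by simp [List.prefix_nil.1 k, lag]) (by simp)
  rw [← lefts_om h g, ← rights_om h g] at e
  refine ⟨w, ⟨⟨hx, hy⟩, ⟨⟨a, by simp [e]⟩, fun t k => ?_, by simp [e]⟩, ?_⟩, rfl, rfl⟩
  · have := a (sw t) (by simpa only [← sw.eq_1, sw_sw] using k.map Sum.swap)
    rw [lag_sw] at this
    omega
  · rintro (⟨p, _, e, s, c, t, rfl, k⟩ | ⟨p, _, e, s, c, t, rfl, k⟩)
    exacts [by simpa [s, k] using b p c t e, s ((b p c t e).2 k)]

theorem hom_det [Finite Z] [Finite A] [Finite X] {V : List Z → Prop} (r : Reg V)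
    (pf : ∀ x y, V x → V (x ++ y) → y = []) (h g : Z → List A) (E : Z → List X)
    (hc : ∀ p x x' z z', V (p ++ x :: z) → V (p ++ x' :: z') → E x <+: E x' → x = x') :
    Det fun α β => ∃ x y, V x ∧ V y ∧ x.flatMap h = y.flatMap g ∧ α = x.flatMap E ∧
      β = y.flatMap E := by
  obtain ⟨L, a, b, c⟩ := sched r pf h g
  have := det_of (reg_post (om E E) a) (pd_lift b E fun p x x' z z' k k' e => by
    have v := (c _ _).1 ⟨_, k, rfl, rfl⟩
    have v' := (c _ _).1 ⟨_, k', rfl, rfl⟩
    rcases x with x | x <;> rcases x' with x' | x'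
    · simp only [lefts_app, lefts_inl] at v v'
      rw [hc _ _ _ _ _ v.1 v'.1 ((List.prefix_map_iff_of_injective Sum.inl_injective).1 e)]
    · exact (b _ _ _ _ _ k k').elim
    · exact (b _ _ _ _ _ k' k).elim
    · simp only [rights_app, rights_inr] at v v'
      rw [hc _ _ _ _ _ v.2.1 v'.2.1 ((List.prefix_map_iff_of_injective Sum.inr_injective).1 e)])
  convert this using 3 with α β
  constructor
  · rintro ⟨x, y, k1, k2, k3, rfl, rfl⟩
    obtain ⟨w, k, rfl, rfl⟩ := (c x y).2 ⟨k1, k2, k3⟩
    exact ⟨_, ⟨w, k, rfl⟩, lefts_om _ _ _, rights_om _ _ _⟩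
  · rintro ⟨_, ⟨w, k, rfl⟩, rfl, rfl⟩
    obtain ⟨k1, k2, k3⟩ := (c _ _).1 ⟨w, k, rfl, rfl⟩
    exact ⟨_, _, k1, k2, k3, lefts_om _ _ _, rights_om _ _ _⟩

end Pool.Agent.H.MP_7f7674_al
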