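import Pool.Agent.H.MP_7f7674_al.A
import Pool.Agent.H.MP_567c26_al.B

/-! Tools: composition of rational relations, cutting words into good blocks, and simultaneous
runs. -/

namespace Pool.Agent.H.MP_7f7674_al

open Pool.Agent.Lib.helper21.Cone Pool.Agent.Lib.RegKit Pool.Agent.H.MP_567c26_al
  Pool.Agent.H.MP_e43f0d_lc Function Classical

variable {A Y Z S B I : Type}

theorem lefts_app' (x y : List (A ⊕ Y)) : lefts (x ++ y) = lefts x ++ lefts y :=
  List.filterMap_append

theorem IR.congr {R R' : List A → List A → Prop} (h : IR R) (e : ∀ u v, R' u v ↔ R u v) : IR R' := by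
  rwa [show R' = R from funext fun u => funext fun v => propext (e u v)]

theorem ir_of [Finite A] [Finite Z] {L : List Z → Prop} (r : Reg L) (h g : Z → List A) :
    IR fun u v => ∃ w, L w ∧ w.flatMap h = u ∧ w.flatMap g = v := by
  have : ∀ w : List Z, lefts (w.flatMap fun z => (h z).map .inl ++ (g z).map .inr) = w.flatMap h ∧
      rights (w.flatMap fun z => (h z).map .inl ++ (g z).map .inr) = w.flatMap g := fun w => by
    induction w with
    | nil => exact ⟨rfl, rfl⟩
    | cons a w ih => simp [ih]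
  exact ⟨_, reg_post (fun z => (h z).map .inl ++ (g z).map .inr) r, fun u v =>
    ⟨fun ⟨w, a, b, c⟩ => ⟨_, ⟨w, a, rfl⟩, (this w).1.trans b, (this w).2.trans c⟩,
      fun ⟨_, ⟨w, a, e⟩, b, c⟩ => ⟨w, a, by rw [← b, ← e, (this w).1], by rw [← c, ← e, (this w).2]⟩⟩⟩

theorem IR.comp [Finite A] {R R' : List A → List A → Prop} (h : IR R) (h' : IR R') :
    IR fun u x => ∃ v, R u v ∧ R' v x := by
  obtain ⟨L, r, e⟩ := h
  obtain ⟨L', r', e'⟩ := h'
  obtain ⟨M, a, b, c⟩ := comp_core (fun a : A ⊕ A => a.getRight?.toList)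
    (fun a : A ⊕ A => a.getLeft?.toList) r r'
  refine IR.congr (ir_of (L := (· ∈ M)) a (Sum.elim (fun a => a.getLeft?.toList) fun _ => [])
    (Sum.elim (fun _ => []) fun a => a.getRight?.toList)) fun u x => ?_
  simp only [fm_left, fm_right, fl, fr, e, e'] at b c ⊢
  constructor
  · rintro ⟨_, ⟨w, p, rfl, rfl⟩, w', p', q, rfl⟩
    obtain ⟨z, k, rfl, rfl⟩ := c w p w' p' q.symm
    exact ⟨z, k, rfl, rfl⟩
  · rintro ⟨z, k, rfl, rfl⟩
    obtain ⟨p, p', q⟩ := b z k
    exact ⟨_, ⟨_, p, rfl, rfl⟩, _, p', q.symm, rfl⟩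

theorem IR.res [Finite A] {R : List A → List A → Prop} (h : IR R) {U V : List A → Prop}
    (r : Reg U) (r' : Reg V) : IR fun u v => R u v ∧ U u ∧ V v := by
  obtain ⟨L, a, e⟩ := h
  exact ⟨_, a.and ((pre_l r).and (pre_r r')), fun u v => ⟨fun ⟨g, g'⟩ => by
    obtain ⟨w, a, rfl, rfl⟩ := (e _ _).1 g
    exact ⟨w, ⟨a, g'⟩, rfl, rfl⟩, by
    rintro ⟨w, ⟨a, g'⟩, rfl, rfl⟩
    exact ⟨(e _ _).2 ⟨w, a, rfl, rfl⟩, g'⟩⟩⟩

variable [Semigroup S]

theorem mu_ne (g : A → S) {u : List A} (h : u ≠ []) : ∃ s : S, mu g u = s := by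
  induction u with
  | nil => exact (h rfl).elim
  | cons a u ih =>
    rw [← List.singleton_append, mu_append, mu_single]
    by_cases k : u = []
    · exact ⟨g a, by simp [k, mu]⟩
    · obtain ⟨s, e⟩ := ih k
      exact ⟨g a * s, by rw [e, WithOne.coe_mul]⟩

theorem ir_rel [Finite A] {g : A → S} {L : List A → Prop} (o : Onto g L) (h0 : IR (Rel g L []))
    (h : ∀ a, IR (Rel g L [a])) (w : List A) : IR (Rel g L w) := by
  induction w using List.reverseRecOn with
  | nil => exact h0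
  | append_singleton w a ih =>
    refine IR.congr (IR.comp ih (h a)) fun u x => ⟨fun ⟨p, q, e⟩ => ?_, ?_⟩
    · obtain ⟨s, k⟩ := mu_ne g (u := u ++ w) (by rintro k; exact o.1 ((List.append_eq_nil_iff.1 k).1 ▸ p))
      obtain ⟨v, k1, k2⟩ := o.2 s
      exact ⟨v, ⟨p, k1, k.trans k2.symm⟩, k1, q, by
        rw [← e, ← List.append_assoc, mu_append, mu_append g (u ++ w), k, k2]⟩
    · rintro ⟨v, ⟨p, -, e⟩, -, q, e'⟩
      exact ⟨p, q, by rw [← List.append_assoc, mu_append, e, ← mu_append, e']⟩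

def Gd (ι : B → S) (x : WithOne S) : Prop :=
  ∃ p p' : B × B, p ≠ p' ∧ mu ι [p.1, p.2] = x ∧ mu ι [p'.1, p'.2] = x

def dcd (bit : B × B → Bool) : List B → List Bool
  | s :: t :: l => bit (s, t) :: dcd bit l
  | _ => []

theorem enc (ι : B → S) : ∃ bit : B × B → Bool, ∀ (γ : List B) (β : List Bool), (∀ b ∈ γ, Gd ι (ι b)) →
    β.length = γ.length → ∃ l, l.length = 2 * γ.length ∧ dcd bit l = β ∧ mu ι l = mu ι γ := by
  let can : WithOne S → Option (B × B) := fun x =>
    if h : ∃ p : B × B, mu ι [p.1, p.2] = x then some h.choose else none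
  refine ⟨fun p => decide (can (mu ι [p.1, p.2]) = some p), fun γ => ?_⟩
  induction γ with
  | nil => exact fun β _ e => ⟨[], rfl, (List.length_eq_zero_iff.1 e).symm, rfl⟩
  | cons b γ ih =>
    rintro (_ | ⟨c, β⟩) h e
    · simp at e
    obtain ⟨l, a1, a2, a3⟩ := ih β (fun x k => h x (List.mem_cons_of_mem _ k)) (Nat.succ.inj e)
    obtain ⟨p, p', ne, e1, e2⟩ := h b List.mem_cons_self
    have k : ∃ p : B × B, mu ι [p.1, p.2] = ι b := ⟨p, e1⟩
    obtain ⟨p, e1, e2⟩ : ∃ p : B × B, mu ι [p.1, p.2] = ι b ∧ decide (can (ι b) = some p) = c := by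
      rw [show can (ι b) = some k.choose from dif_pos k]
      cases c
      · by_cases g : k.choose = p
        · exact ⟨p', e2, by simp [g, ne]⟩
        · exact ⟨p, e1, by simp [g]⟩
      · exact ⟨_, k.choose_spec, by simp⟩
    refine ⟨p.1 :: p.2 :: l, by simp [a1]; ring, by simp only [dcd, e1, e2, a2], ?_⟩
    rw [show p.1 :: p.2 :: l = [p.1, p.2] ++ l from rfl, mu_append, e1, a3, ← mu_single ι,
      ← mu_append]
    rfl

theorem cut {g : A → S} {ι : B → S}
    (hB : ∀ w : List A, w ≠ [] → w.length ≤ 3 → ∃ b, mu g w = ι b) (n : ℕ) :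
    ∀ W : List (A ⊕ Y), (∃ W1 W2, ∃ γ : List B, W = W1 ++ W2 ∧ γ.length = n ∧
      (∀ b ∈ γ, Gd ι (ι b)) ∧ mu g (lefts W1) = mu ι γ) ∨
        ∃ t : List B, t.length ≤ n + 1 ∧ mu g (lefts W) = mu ι t := by
  have c1 : ∀ W : List (A ⊕ Y), (∃ W1 W2 b, W = W1 ++ W2 ∧ Gd ι (ι b) ∧ mu g (lefts W1) = ι b) ∨
      ∃ t : List A, t.length ≤ 2 ∧ mu g (lefts W) = mu g t := by
    intro W
    induction W using List.reverseRecOn with
    | nil => exact Or.inr ⟨[], by simp, rfl⟩
    | append_singleton W x ih =>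
      rcases ih with ⟨W1, W2, b, rfl, h⟩ | ⟨t, h, e⟩
      · exact Or.inl ⟨W1, W2 ++ [x], b, by simp, h⟩
      rw [lefts_app', mu_append, e, ← mu_append]
      rcases x with c | x
      swap
      · exact Or.inr ⟨t, h, by simp⟩
      by_cases k : t.length ≤ 1
      · exact Or.inr ⟨t ++ [c], by simp; omega, rfl⟩
      obtain ⟨a, b, rfl⟩ := List.length_eq_two.1 (show t.length = 2 by omega)
      obtain ⟨s1, e1⟩ := hB [a] nofun (by simp)
      obtain ⟨s2, e2⟩ := hB [b, c] nofun (by simp)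
      obtain ⟨s3, e3⟩ := hB [a, b] nofun (by simp)
      obtain ⟨s4, e4⟩ := hB [c] nofun (by simp)
      obtain ⟨s5, e5⟩ := hB [a, b, c] nofun (by simp)
      by_cases k' : (s1, s2) = (s3, s4)
      · obtain ⟨rfl, -⟩ := Prod.mk.inj k'
        exact Or.inr ⟨[a, c], le_rfl, by rw [mu_append, e3, ← e1, ← mu_append]; rfl⟩
      · refine Or.inl ⟨W ++ [.inl c], [], s5, by simp, ⟨_, _, k', ?_, ?_⟩, by
          rw [lefts_app', mu_append, e, ← mu_append]; exact e5⟩
        · exact (mu_append ι [s1] [s2]).trans (by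
            rw [mu_single, mu_single, ← e1, ← e2, ← mu_append]; exact e5)
        · exact (mu_append ι [s3] [s4]).trans (by
            rw [mu_single, mu_single, ← e3, ← e4, ← mu_append]; exact e5)
  choose ga hga using fun a => hB [a] nofun (by simp)
  induction n with
  | zero => exact fun W => Or.inl ⟨[], W, [], rfl, rfl, by simp, rfl⟩
  | succ n ih =>
    intro W
    rcases c1 W with ⟨W1, W2, b, rfl, h, e⟩ | ⟨t, h, e⟩
    · rcases ih W2 with ⟨W2, W3, γ, rfl, a1, a2, a3⟩ | ⟨t, a1, a2⟩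
      · exact Or.inl ⟨W1 ++ W2, W3, b :: γ, by simp, by simp [a1], List.forall_mem_cons.2 ⟨h, a2⟩,
          by rw [lefts_app', mu_append, e, a3, ← mu_single ι, ← mu_append]; rfl⟩
      · exact Or.inr ⟨b :: t, by simpa using a1,
          by rw [lefts_app', mu_append, e, a2, ← mu_single ι, ← mu_append]; rfl⟩
    · refine Or.inr ⟨t.map ga, by simp; omega, e.trans ?_⟩
      simp only [mu, List.map_map]
      congr 2
      funext a
      exact (mu_single g a).symm.trans (hga a)

noncomputable def rn (i : I) (W : List (A ⊕ I × A)) : List (A ⊕ A) :=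
  W.filterMap (Sum.elim (fun a => some (.inl a)) fun x => if x.1 = i then some (.inr x.2) else none)

theorem rn_app (i : I) (x y : List (A ⊕ I × A)) : rn i (x ++ y) = rn i x ++ rn i y :=
  List.filterMap_append

theorem lefts_rn (i : I) (W : List (A ⊕ I × A)) : lefts (rn i W) = lefts W := by
  simp only [lefts, rn, List.filterMap_filterMap]
  congr 1
  funext x
  rcases x with a | x
  · rfl
  · simp only [Sum.elim_inr]
    split_ifs <;> rfl

theorem multi [Finite I] (u : List A) : ∀ w : I → List (A ⊕ A), (∀ i, lefts (w i) = u) →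
    ∃ W : List (A ⊕ I × A), lefts W = u ∧ ∀ i, rn i W = w i := by
  have := Fintype.ofFinite I
  have pre : ∀ y : I → List A, ∃ W : List (A ⊕ I × A), lefts W = [] ∧
      ∀ i, rn i W = (y i).map .inr := fun y => by
    have : ∀ l : List I, l.Nodup → ∃ W : List (A ⊕ I × A), lefts W = [] ∧
        ∀ i, rn i W = if i ∈ l then (y i).map .inr else [] := fun l h => by
      induction l with
      | nil => exact ⟨[], rfl, fun _ => rfl⟩
      | cons j l ih =>
        obtain ⟨W, a, b⟩ := ih (List.nodup_cons.1 h).2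
        refine ⟨(y j).map (fun c => .inr (j, c)) ++ W, by
          rw [lefts_app', a]; simp [lefts, List.filterMap_map], fun i => ?_⟩
        rw [rn_app, b]
        by_cases k : j = i
        · subst k
          simp [rn, List.filterMap_map, (List.nodup_cons.1 h).1]
        · simp [rn, List.filterMap_map, k, Ne.symm k]
    simpa using this _ Finset.univ.nodup_toList
  have d : ∀ w : List (A ⊕ A), ∃ y : List A, w = y.map .inr ∨
      ∃ c w', w = y.map .inr ++ .inl c :: w' := fun w => by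
    induction w with
    | nil => exact ⟨[], Or.inl rfl⟩
    | cons a w ih =>
      obtain ⟨y, ih⟩ := ih
      rcases a with a | a
      · exact ⟨[], Or.inr ⟨a, w, rfl⟩⟩
      · exact ⟨a :: y, ih.imp (congrArg _) fun ⟨c, w', e⟩ => ⟨c, w', congrArg _ e⟩⟩
  induction u with
  | nil =>
    intro w h
    choose y hy using fun i => d (w i)
    obtain ⟨W, a, b⟩ := pre y
    refine ⟨W, a, fun i => (b i).trans ((hy i).resolve_right ?_).symm⟩
    rintro ⟨c, w', e⟩
    simpa [e] using h i
  | cons c u ih =>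
    intro w h
    have : ∀ i, ∃ y : List A, ∃ w', w i = y.map .inr ++ .inl c :: w' ∧ lefts w' = u := fun i => by
      obtain ⟨y, e | ⟨c', w', e⟩⟩ := d (w i)
      · simpa [e] using h i
      · obtain ⟨rfl, k⟩ : c' = c ∧ lefts w' = u := by simpa [e] using h i
        exact ⟨y, w', e, k⟩
    choose y w' a b using this
    obtain ⟨W, a1, a2⟩ := pre y
    obtain ⟨W', b1, b2⟩ := ih w' b
    exact ⟨W ++ .inl c :: W', by simp [lefts_app', a1, b1], fun i => by
      rw [rn_app, a2, a, ← b2]; rfl⟩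

end Pool.Agent.H.MP_7f7674_al
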