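import Pool.Agent.H.MP_7f7674_al.B

/-! A quasi-automatic structure with uniqueness yields an asynchronous automatic structure. -/

namespace Pool.Agent.H.MP_7f7674_al

open Pool.Agent.Lib.helper21.Cone Pool.Agent.Lib.RegKit Pool.Agent.H.MP_567c26_al
  Pool.Agent.H.MP_e43f0d_lc Function Classical

variable {A Γ S B σ : Type}

theorem dol_pre {l l' : List B} (h : l.map some ++ [none] <+: l'.map some ++ [none]) : l = l' := by
  induction l generalizing l' with
  | nil => cases l' <;> simp_all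
  | cons a l ih =>
    cases l' with
    | nil => simp at h
    | cons b l' =>
      simp only [List.map_cons, List.cons_append, List.cons_prefix_cons, Option.some.injEq] at h
      rw [h.1, ih h.2]

variable [Semigroup S]

theorem code [Finite σ] [Finite B] (ι : B → S) (Δ : σ → Γ → σ) (s : σ) (Ac : σ → Prop)
    (val : List Γ → WithOne S) (h0 : val [] = 1) (ha : ∀ x y, val (x ++ y) = val x * val y)
    (ct : ∀ n W, (∃ W1 W2, ∃ γ : List B, W = W1 ++ W2 ∧ γ.length = n ∧ (∀ b ∈ γ, Gd ι (ι b)) ∧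
      val W1 = mu ι γ) ∨ ∃ t : List B, t.length ≤ n + 1 ∧ val W = mu ι t) :
    ∃ (Z : Type) (_ : Finite Z) (V : List Z → Prop) (ρ : Z → List Γ) (ε : Z → List B)
      (E : Z → List (Option B)), Reg V ∧ (∀ x y, V x → V (x ++ y) → y = []) ∧
      (∀ (p : List Z) x x' z z', V (p ++ x :: z) → V (p ++ x' :: z') → E x <+: E x' → x = x') ∧
      (∀ x, V x → Ac ((x.flatMap ρ).foldl Δ s) ∧ val (x.flatMap ρ) = mu ι (x.flatMap ε) ∧
        x.flatMap E = (x.flatMap ε).map some ++ [none]) ∧
      ∀ W : List Γ, Ac (W.foldl Δ s) → ∃ x, V x ∧ mu ι (x.flatMap ε) = val W := by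
  obtain ⟨bit, hb⟩ := enc ι
  obtain ⟨ν, hν⟩ := exists_injective_nat σ
  obtain ⟨N, hN⟩ := (Set.finite_range ν).bddAbove
  let β : σ → List Bool := fun q => (List.range (N + 2)).map fun j => decide (j = ν q)
  have hβ : Injective β := fun q q' e => hν (by
    have : ν q ≤ N := hN ⟨q, rfl⟩
    simpa using List.map_inj_left.1 e (ν q) (by simp; omega))
  have := (List.finite_length_le B (2 * (N + 2))).to_subtype
  let P : σ × Option σ × {l : List B | l.length ≤ 2 * (N + 2)} → List Γ → Prop := fun z W =>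
    val W = mu ι z.2.2.1 ∧ (∀ q, z.2.1 = some q → z.2.2.1.length = 2 * (N + 2) ∧
      dcd bit z.2.2.1 = β q ∧ W.foldl Δ z.1 = q) ∧
      (z.2.1 = none → z.2.2.1.length < 2 * (N + 2) ∧ Ac (W.foldl Δ z.1))
  have : ∀ z, ∃ W, (∃ W', P z W') → P z W := fun z => by
    by_cases k : ∃ W', P z W'
    exacts [⟨k.choose, fun _ => k.choose_spec⟩, ⟨[], fun g => (k g).elim⟩]
  choose ρ hρ using this
  let st : Option (Option σ) → σ × Option σ × {l : List B | l.length ≤ 2 * (N + 2)} →
      Option (Option σ) := fun q z => if q = some (some z.1) ∧ P z (ρ z) then some z.2.1 else none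
  have s0 : ∀ x : List _, x.foldl st none = none := fun x => by
    induction x with
    | nil => rfl
    | cons a x ih => simpa [st] using ih
  have s1 : ∀ q z (x : List _), (z :: x).foldl st q = some none →
      q = some (some z.1) ∧ P z (ρ z) ∧ x.foldl st (some z.2.1) = some none := fun q z x h => by
    by_cases k : q = some (some z.1) ∧ P z (ρ z)
    · exact ⟨k.1, k.2, by rwa [List.foldl_cons, show st q z = _ from if_pos k] at h⟩
    · rw [List.foldl_cons, show st q z = _ from if_neg k, s0] at h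
      cases h
  have s2 : ∀ x : List _, x.foldl st (some none) = some none → x = [] := by
    rintro (_ | ⟨z, x⟩) h
    exacts [rfl, nomatch (s1 _ _ _ h).1]
  refine ⟨_, inferInstance, fun x => x.foldl st (some (some s)) = some none, ρ, fun z => z.2.2.1,
    fun z => z.2.2.1.map some ++ if z.2.1 = none then [none] else [],
    reg_iff.2 ⟨_, inferInstance, st, _, (· = some none), fun _ => Iff.rfl⟩,
    fun x y a b => s2 y (by beta_reduce at a b; rwa [List.foldl_append, a] at b), ?_, fun x => ?_, fun W => ?_⟩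
  · rintro p ⟨q, o, l, hl⟩ ⟨q', o', l', hl'⟩ z z' a b e
    beta_reduce at a b
    rw [List.foldl_append] at a b
    obtain ⟨a1, ⟨-, a2, a3⟩, -⟩ := s1 _ _ _ a
    obtain ⟨b1, ⟨-, b2, b3⟩, -⟩ := s1 _ _ _ b
    obtain rfl : q = q' := by simpa using a1.symm.trans b1
    rcases o with _ | o <;> rcases o' with _ | o' <;> simp only [reduceCtorEq, if_true, if_false,
      List.append_nil] at e
    · obtain rfl := dol_pre e
      rfl
    · simpa using e.subset (List.mem_append_right _ List.mem_cons_self)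
    · have := (a2 _ rfl).1
      have := (b3 rfl).1
      have := e.eq_of_length_le (by simp at *; omega)
      simpa using (this ▸ List.mem_append_right _ List.mem_cons_self : none ∈ l.map some)
    · have := (a2 _ rfl).1
      have := (b2 _ rfl).1
      obtain rfl := List.map_injective_iff.2 (Option.some_injective _)
        (e.eq_of_length_le (by simp at *; omega))
      rw [hβ ((a2 _ rfl).2.1.symm.trans (b2 _ rfl).2.1)]
  · induction x generalizing s with
    | nil => exact nofun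
    | cons z x ih =>
      intro h
      obtain ⟨a1, ⟨a2, a3, a4⟩, a5⟩ := s1 _ _ _ h
      obtain rfl : s = z.1 := by simpa using a1
      simp only [List.flatMap_cons, List.foldl_append, ha, mu_append, a2]
      rcases k : z.2.1 with _ | q
      · rw [k] at a5
        obtain rfl := s2 _ a5
        exact ⟨(a4 k).2, by simp [h0, mu], by simp⟩
      · rw [k] at a5
        obtain ⟨b1, b2, b3⟩ := ih q a5
        exact ⟨(a3 q k).2.2 ▸ b1, by rw [b2], by simp [b3]⟩
  · induction' e : W.length using Nat.strong_induction_on with n ih generalizing W s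
    intro h
    rcases ct (N + 2) W with ⟨W1, W2, γ, rfl, a1, a2, a3⟩ | ⟨t, a1, a2⟩
    · obtain ⟨l, b1, b2, b3⟩ := hb γ (β (W1.foldl Δ s)) a2 (by simp [β, a1])
      have ne : W1 ≠ [] := by
        rintro rfl
        obtain ⟨c, k⟩ := mu_ne ι (u := γ) (by rintro rfl; simp at a1)
        exact WithOne.one_ne_coe (h0.symm.trans (a3.trans k))
      obtain ⟨x, c1, c2⟩ := ih W2.length (by
        have := List.length_pos_iff.2 ne
        simp at e
        omega) (W1.foldl Δ s) W2 rfl (by rwa [List.foldl_append] at h)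
      rw [a1] at b1
      have := hρ (s, some (W1.foldl Δ s), ⟨l, b1.le⟩) ⟨W1, a3.trans b3.symm, by
        rintro _ ⟨⟩
        exact ⟨b1, b2, rfl⟩, nofun⟩
      refine ⟨(s, some (W1.foldl Δ s), ⟨l, b1.le⟩) :: x, ?_, by
        rw [List.flatMap_cons, mu_append, c2, ha, a3, ← b3]⟩
      beta_reduce
      rw [List.foldl_cons, show st _ _ = _ from if_pos ⟨rfl, this⟩]
      exact c1
    · have := hρ (s, none, ⟨t, by simp; omega⟩) ⟨W, a2, nofun, fun _ => ⟨by simp; omega, h⟩⟩
      exact ⟨[(s, none, ⟨t, by simp; omega⟩)], (if_pos ⟨rfl, this⟩ : st _ _ = _), by simp [a2]⟩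

theorem async_of [Finite A] {g : A → S} {L : List A → Prop} (o : Onto g L)
    (inj : ∀ u v, L u → L v → mu g u = mu g v → u = v) (h0 : IR (Rel g L []))
    (h : ∀ a, IR (Rel g L [a])) : Async True S := by
  have fin : {s : S | ∃ w : List A, w.length ≤ 3 ∧ mu g w = s}.Finite :=
    Set.Finite.preimage (f := fun s : S => (s : WithOne S)) (fun _ _ _ _ => WithOne.coe_inj.1)
      ((List.finite_length_le A 3).image (mu g))
  have := fin.to_subtype
  choose wb w1 w2 using fun b : {s : S | ∃ w : List A, w.length ≤ 3 ∧ mu g w = s} => b.2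
  let wI : Option {s : S | ∃ w : List A, w.length ≤ 3 ∧ mu g w = s} → List A :=
    fun i => (i.map wb).getD []
  choose M r e using fun i => ir_rel o h0 h (wI i)
  choose σ _ δ s F k using fun i => reg_iff.1 (r i)
  let Δ : (∀ i, σ i) → A ⊕ _ × A → ∀ i, σ i := fun q x i => (rn i [x]).foldl (δ i) (q i)
  have f : ∀ (W : List _) q i, W.foldl Δ q i = (rn i W).foldl (δ i) (q i) := fun W => by
    induction W with
    | nil => exact fun _ _ => rfl
    | cons x W ih =>
      intro q t
      rw [List.foldl_cons, ih, ← List.foldl_append, ← rn_app]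
      rfl
  obtain ⟨Z, _, V, ρ, ε, E, a1, a2, a3, a4, a5⟩ := code
    (B := {s : S | ∃ w : List A, w.length ≤ 3 ∧ mu g w = s}) Subtype.val Δ s (fun q => ∀ i, F i (q i))
    (fun W => mu g (lefts W)) rfl (fun x y => by rw [lefts_app', mu_append])
    (cut fun w p q => by
      obtain ⟨c, k⟩ := mu_ne g p
      exact ⟨⟨c, w, q, k⟩, k⟩)
  have rl : ∀ x i, V x → Rel g L (wI i) (lefts (x.flatMap ρ)) (rights (rn i (x.flatMap ρ))) :=
    fun x i v => (e i _ _).2 ⟨_, (k i _).2 (f _ _ _ ▸ (a4 x v).1 i), lefts_rn _ _, rfl⟩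
  have d1 : ∀ x : List Z, x.flatMap (fun z => lefts (ρ z)) = lefts (x.flatMap ρ) := fun x => by
    induction x with
    | nil => rfl
    | cons z x ih => simp [lefts_app', ih]
  have d2 : ∀ i (x : List Z), x.flatMap (fun z => rights (rn i (ρ z))) =
      rights (rn i (x.flatMap ρ)) := fun i x => by
    induction x with
    | nil => rfl
    | cons z x ih => simp [rn_app, ih]
  have key : ∀ i w, mu Subtype.val w = mu g (wI i) →
      Det (Dollar (Rel Subtype.val (fun α => ∃ x, V x ∧ x.flatMap ε = α) w)) := fun i w hw => by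
    convert hom_det a1 a2 (fun z => rights (rn i (ρ z))) (fun z => lefts (ρ z)) E a3 using 3 with α β
    simp only [d1, d2]
    constructor
    · rintro ⟨_, _, ⟨⟨x, p, rfl⟩, ⟨y, q, rfl⟩, c⟩, rfl, rfl⟩
      refine ⟨x, y, p, q, inj _ _ (rl x i p).2.1 (rl y i q).1 ?_, (a4 x p).2.2.symm,
        (a4 y q).2.2.symm⟩
      rw [← (rl x i p).2.2, mu_append, ← hw, (a4 x p).2.1, (a4 y q).2.1, ← mu_append, c]
    · rintro ⟨x, y, p, q, c, rfl, rfl⟩
      refine ⟨_, _, ⟨⟨x, p, rfl⟩, ⟨y, q, rfl⟩, ?_⟩, (a4 x p).2.2, (a4 y q).2.2⟩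
      rw [mu_append, hw, ← (a4 x p).2.1, ← (a4 y q).2.1, ← mu_append, (rl x i p).2.2, c]
  refine ⟨_, this, Subtype.val, _, fun _ => Subtype.val_injective, reg_post ε a1, ⟨?_, fun c => ?_⟩,
    key none [] rfl, fun b => key (some b) [b] ((mu_single _ b).trans (w2 b).symm)⟩
  · rintro ⟨x, p, c⟩
    obtain ⟨t, q⟩ := mu_ne g (u := lefts (x.flatMap ρ)) fun z => o.1 (z ▸ (rl x none p).1)
    rw [(a4 x p).2.1, c] at q
    exact WithOne.one_ne_coe q
  · obtain ⟨u, p, q⟩ := o.2 c
    have : ∀ i, ∃ w, M i w ∧ lefts w = u := fun i => by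
      obtain ⟨t, c⟩ := mu_ne g (u := u ++ wI i) fun z => o.1 ((List.append_eq_nil_iff.1 z).1 ▸ p)
      obtain ⟨v, p', q'⟩ := o.2 t
      exact ((e i u v).1 ⟨p, p', c.trans q'.symm⟩).imp fun w c => ⟨c.1, c.2.1⟩
    choose w b1 b2 using this
    obtain ⟨W, c1, c2⟩ := multi u w b2
    obtain ⟨x, c3, c4⟩ := a5 W fun i => by rw [f, c2]; exact (k i _).1 (b1 i)
    exact ⟨_, ⟨x, c3, rfl⟩, by rw [c4, c1, q]⟩

theorem async_of_cs [Finite A] {g : A → S} {L : List A → Prop} (h : QAS g L) {k : ℕ∞} (c : CS k)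
    (hk : ∀ u, {v | Rel g L [] u v}.encard ≤ k) : Async True S := by
  obtain ⟨-, o, h0, h⟩ := h
  obtain ⟨C, r, a, b⟩ := c A _ h0 (fun u v p => ⟨p.1, p.1, by simp⟩)
    (fun u v p => ⟨p.2.1, p.1, by simpa using p.2.2.symm⟩)
    (fun u v x p q => ⟨p.1, q.2.1, p.2.2.trans (by simpa using q.2.2)⟩) hk
  have sub : ∀ u, u ∈ C → L u := fun u p => (a u p).elim fun _ q => q.1
  have res : ∀ w, Rational (Rel g L w) → IR (Rel g (· ∈ C) w) := fun w p =>
    IR.congr (IR.res p.ir (U := (· ∈ C)) (V := (· ∈ C)) r r) fun u v =>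
      ⟨fun q => ⟨⟨sub _ q.1, sub _ q.2.1, q.2.2⟩, q.1, q.2.1⟩, fun q => ⟨q.2.1, q.2.2, q.1.2.2⟩⟩
  refine async_of (L := (· ∈ C)) ⟨fun p => o.1 (sub _ p), fun s => ?_⟩ (fun u v p q e => ?_)
    (res _ h0) fun a => res _ (h a)
  · obtain ⟨u, p, q⟩ := o.2 s
    obtain ⟨v, ⟨p', q'⟩, -⟩ := b u ⟨u, p, p, by simp⟩
    exact ⟨v, p', q'.2.2.symm.trans (by simpa using q)⟩
  · exact (b u ⟨u, sub _ p, sub _ p, by simp⟩).unique ⟨p, sub _ p, sub _ p, by simp⟩
      ⟨q, sub _ p, sub _ q, by simpa using e⟩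

end Pool.Agent.H.MP_7f7674_al
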