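import Pool.Agent.H.MP_7f7674_al.C

/-! Deterministic difunctional relations have regular sections. -/

namespace Pool.Agent.H.MP_7f7674_al

open Pool.Agent.Lib.helper21.Cone Pool.Agent.Lib.RegKit Pool.Agent.H.MP_567c26_al
  Pool.Agent.H.MP_e43f0d_lc Function Classical

variable {X : Type}

theorem det_ir {R : List X → List X → Prop} (h : Det R) : ∃ L : List (X ⊕ X) → Prop, Reg L ∧ PD L ∧
    ∀ x y, R x y ↔ ∃ w, L w ∧ lefts w = x ∧ rights w = y := by
  obtain ⟨σ, _, s, tp, δ, F, e⟩ := h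
  let st : Option σ → X ⊕ X → Option σ := fun o c => o.bind fun q =>
    if tp q = c.isLeft then δ q (c.elim id id) else none
  have s0 : ∀ w : List (X ⊕ X), w.foldl st none = none := fun w => by
    induction w with
    | nil => rfl
    | cons a w ih => exact ih
  have s1 : ∀ o c (w : List (X ⊕ X)) q, (c :: w).foldl st o = some q → ∃ p p', o = some p ∧
      tp p = c.isLeft ∧ δ p (c.elim id id) = some p' ∧ w.foldl st (some p') = some q := by
    intro o c w q h
    rw [List.foldl_cons] at h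
    rcases k : st o c with _ | p'
    · rw [k, s0] at h
      cases h
    · obtain ⟨p, rfl, k'⟩ := Option.bind_eq_some_iff.1 k
      split_ifs at k' with g
      exact ⟨p, p', rfl, g, k', k ▸ h⟩
  refine ⟨fun w => ∃ q ∈ F, w.foldl st (some s) = some q, reg_iff.2 ⟨_, inferInstance, st, some s,
    fun o => ∃ q ∈ F, o = some q, fun _ => Iff.rfl⟩, ?_, fun x y => (e x y).symm.trans ⟨?_, ?_⟩⟩
  · rintro w a b w1 w2 ⟨q, -, k⟩ ⟨q', -, k'⟩
    rw [List.foldl_append] at k k'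
    obtain ⟨p, -, e1, e2, -⟩ := s1 _ _ _ _ k
    obtain ⟨p', -, e1', e2', -⟩ := s1 _ _ _ _ k'
    obtain rfl := Option.some.inj (e1.symm.trans e1')
    simp [e2] at e2'
  · intro g
    clear e
    induction g with
    | done g => exact ⟨[], ⟨_, g, rfl⟩, rfl, rfl⟩
    | @left _ _ c _ _ a b _ ih =>
      obtain ⟨w, k, rfl, rfl⟩ := ih
      exact ⟨.inl c :: w, by simpa [st, a, b] using k, rfl, rfl⟩
    | @right _ _ c _ _ a b _ ih =>
      obtain ⟨w, k, rfl, rfl⟩ := ih
      exact ⟨.inr c :: w, by simpa [st, a, b] using k, rfl, rfl⟩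
  · rintro ⟨w, ⟨q, a, b⟩, rfl, rfl⟩
    clear e
    induction w generalizing s with
    | nil => exact .done (Option.some.inj b ▸ a)
    | cons c w ih =>
      obtain ⟨p, p', e1, e2, e3, e4⟩ := s1 _ _ _ _ b
      obtain rfl := Option.some.inj e1
      cases c
      exacts [.left e2 e3 (ih _ e4), .right e2 e3 (ih _ e4)]

theorem all_left {w : List (X ⊕ X)} (h : rights w = []) : w = (lefts w).map .inl := by
  induction w with
  | nil => rfl
  | cons a w ih =>
    cases a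
    · exact congrArg _ (ih h)
    · simp at h

theorem dvg {α : Type} (w w' : List α) : w <+: w' ∨ w' <+: w ∨
    ∃ p a b w1 w2, a ≠ b ∧ w = p ++ a :: w1 ∧ w' = p ++ b :: w2 := by
  induction w generalizing w' with
  | nil => simp
  | cons a w ih =>
    rcases w' with _ | ⟨b, w'⟩
    · simp
    by_cases k : a = b
    · subst k
      rcases ih w' with h | h | ⟨p, c, d, w1, w2, h, rfl, rfl⟩
      exacts [Or.inl (by simpa using h), Or.inr (Or.inl (by simpa using h)),
        Or.inr (Or.inr ⟨a :: p, c, d, w1, w2, h, rfl, rfl⟩)]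
    · exact Or.inr (Or.inr ⟨[], a, b, w, w', k, rfl, rfl⟩)

variable [Finite X]

theorem IR.rat {R : List X → List X → Prop} (h : IR R) : Rational R := by
  obtain ⟨L, r, e⟩ := h
  obtain ⟨σ, _, δ, s, F, k⟩ := reg_iff.1 r
  refine ⟨σ, inferInstance, Set.range fun z : σ × (X ⊕ X) => (z.1, lefts [z.2], rights [z.2],
    δ z.1 z.2), {s}, {q | F q}, Set.finite_range _, fun u v => (e u v).trans ⟨?_, ?_⟩⟩
  · rintro ⟨w, a, rfl, rfl⟩
    refine ⟨s, rfl, _, (k w).1 a, ?_⟩
    clear a k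
    induction w generalizing s with
    | nil => exact .nil _
    | cons c w ih =>
      rw [← List.singleton_append, lefts_app, rights_app]
      exact .cons ⟨(s, c), rfl⟩ (ih _)
  · rintro ⟨_, rfl, q, a, b⟩
    have : ∀ {p u v q}, MP_e43f0d_lc.Run (Set.range fun z : σ × (X ⊕ X) => (z.1, lefts [z.2],
        rights [z.2], δ z.1 z.2)) p u v q →
        ∃ w : List (X ⊕ X), w.foldl δ p = q ∧ lefts w = u ∧ rights w = v := by
      intro p u v q r
      induction r with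
      | nil p => exact ⟨[], rfl, rfl, rfl⟩
      | cons m _ ih =>
        obtain ⟨⟨p, c⟩, m⟩ := m
        simp only [Prod.mk.injEq] at m
        obtain ⟨rfl, rfl, rfl, rfl⟩ := m
        obtain ⟨w, a, rfl, rfl⟩ := ih
        exact ⟨c :: w, a, lefts_app [c] w, rights_app [c] w⟩
    obtain ⟨w, rfl, c⟩ := this b
    exact ⟨w, (k w).2 a, c⟩

theorem reg_min [LinearOrder X] {L : List (X ⊕ X) → Prop} (r : Reg L) (pd : PD L) :
    ∃ M, Reg M ∧ ∀ w, L w → (M w ↔ ∃ w', L w' ∧ rights w' = rights w ∧ lefts w' < lefts w) := by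
  obtain ⟨σ, _, U, V, a, b, c⟩ := split r
  have pr : ∀ {P : List (X ⊕ X) → Prop}, Reg P → Reg fun w => ∃ w', P w' ∧ rights w' = rights w :=
    fun r => (pre_r (post_l (pre_sw r))).congr fun w =>
      ⟨fun ⟨w', p, q⟩ => ⟨sw w', p, by simpa using q⟩, fun ⟨w', p, q⟩ => ⟨sw w', by simpa, by simpa⟩⟩
  refine ⟨_, (reg_ex fun q => reg_ex fun z : {z : X × X // z.2 < z.1} => reg_app (a q)
    ((pr (by
        obtain ⟨σ, _, δ, s, F, e⟩ := reg_iff.1 (b q)
        exact reg_iff.2 ⟨σ, inferInstance, δ, δ s (.inl z.1.2), F, fun w => e (.inl z.1.2 :: w)⟩ :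
          Reg fun w => V q (.inl z.1.2 :: w))).cons (.inl z.1.1))).or
    (reg_app r ((pre_r (U := (· = [])) (reg_single [])).and
      (Reg.not (P := (· = [])) (reg_single [])))), fun w g => ⟨?_, ?_⟩⟩
  · rintro (⟨q, ⟨⟨x, y⟩, l⟩, p, _, rfl, k, w1, ⟨w2, k', e⟩, rfl⟩ | ⟨p, t, rfl, k, e, k'⟩)
    · exact ⟨_, (c _ _).2 ⟨q, k, k'⟩, by simp [e], by
        simpa [lt_app, List.cons_lt_cons_iff] using Or.inl l⟩
    · refine ⟨p, k, by simp [e], ?_⟩
      have : lefts t ≠ [] := fun z => k' (by rw [all_left e, z]; rfl)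
      simpa using (lt_app (a := lefts p) (c := []) (d := lefts t) rfl).2
        (Or.inr ⟨rfl, by cases h : lefts t; exacts [(this h).elim, List.nil_lt_cons _ _]⟩)
  · rintro ⟨w', k, e, l⟩
    rcases dvg w w' with ⟨t, rfl⟩ | ⟨t, rfl⟩ | ⟨p, x | x, y | y, w1, w2, ne, rfl, rfl⟩
    · have := (lt_app (a := lefts w) (c := lefts t) (d := []) rfl).1 (by simpa using l)
      simp at this
    · exact Or.inr ⟨_, _, rfl, k, by simpa using e, by rintro rfl; simp at l⟩
    · obtain ⟨q, k1, k2⟩ := (c _ _).1 k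
      have : y ≠ x := fun z => ne (by rw [z])
      exact Or.inl ⟨q, ⟨(x, y), by simpa [lt_app, List.cons_lt_cons_iff, this] using l⟩, p, _, rfl,
        k1, w1, ⟨w2, k2, by simpa using e⟩, rfl⟩
    · exact (pd _ _ _ _ _ g k).elim
    · exact (pd _ _ _ _ _ k g).elim
    · simp only [rights_app, rights_inr, List.append_cancel_left_eq, List.cons.injEq] at e
      exact (ne (by rw [e.1])).elim

theorem sec {L : List (X ⊕ X) → Prop} (r : Reg L) (pd : PD L) {Φ : List X → List X → Prop}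
    (e : ∀ y x, Φ y x ↔ ∃ w, L w ∧ lefts w = y ∧ rights w = x)
    (df : ∀ y y' x x', Φ y x → Φ y x' → Φ y' x' → Φ y' x) :
    ∃ D, Reg D ∧ (∀ y, D y → ∃ x, Φ y x) ∧ ∀ x, (∃ y, Φ y x) → ∃! y, D y ∧ Φ y x := by
  obtain ⟨n, ⟨ε⟩⟩ := Finite.exists_equiv_fin X
  let _ := LinearOrder.lift' ε ε.injective
  obtain ⟨σ, _, δ, s, F, k⟩ := reg_iff.1 r
  have rq : ∀ p q, Reg fun w : List (X ⊕ X) => w.foldl δ p = q := fun p q =>
    reg_iff.2 ⟨σ, inferInstance, δ, p, (· = q), fun _ => Iff.rfl⟩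
  obtain ⟨D, hD⟩ : ∃ D, (fun u => ¬∃ w, (L w ∧ ∃ q x y, w = x ++ y ∧ List.foldl δ s x = q ∧
    ∃ x y', y = x ++ y' ∧ (List.foldl δ q x = q ∧ rights x = [] ∧ ¬x = []) ∧ True) ∧
      lefts w = u) = D := ⟨_, rfl⟩
  have rl : Reg D := hD ▸ (post_l (r.and (reg_ex fun q => reg_app (rq s q) (reg_app ((rq q q).and
    ((pre_r (U := (· = [])) (reg_single [])).and (Reg.not (P := (· = [])) (reg_single []))))
      (show Reg fun _ => True from reg_univ))))).not
  obtain ⟨M, m1, m2⟩ := reg_min (r.and (pre_l rl)) fun _ _ _ _ _ a b => pd _ _ _ _ _ a.1 b.1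
  refine ⟨_, post_l ((r.and (pre_l rl)).and m1.not), fun y ⟨w, a, b⟩ =>
    ⟨_, (e _ _).2 ⟨w, a.1.1, b, rfl⟩⟩, fun x ⟨y, g⟩ => ?_⟩
  have ne : {y | Φ y x ∧ D y}.Nonempty := by
    induction' h : y.length using Nat.strong_induction_on with n ih generalizing y
    by_cases z : D y
    · exact ⟨y, g, z⟩
    rw [← hD, not_not] at z
    obtain ⟨_, ⟨a, _, p, _, rfl, rfl, c, t, rfl, ⟨b1, b2, b3⟩, -⟩, rfl⟩ := z
    have a' : L (p ++ t) := (k _).2 (by simpa only [List.foldl_append, b1] using (k _).1 a)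
    refine ih _ ?_ _ (df _ _ _ _ g ((e _ _).2 ⟨_, a, rfl, rfl⟩) ((e _ _).2 ⟨_, a', rfl,
      by simp [b2]⟩)) rfl
    have : lefts c ≠ [] := fun z => b3 (by rw [all_left b2, z]; rfl)
    have := List.length_pos_iff.2 this
    simp [← h]
    omega
  have := Fintype.ofFinite σ
  have fin : {y | Φ y x ∧ D y}.Finite := by
    refine (List.finite_length_le X (Fintype.card σ * (x.length + 1))).subset ?_
    rintro _ ⟨a, b⟩
    obtain ⟨w, a', rfl, rfl⟩ := (e _ _).1 a
    by_contra c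
    have := List.length_filterMap_le Sum.getLeft? w
    have l : ∀ i, (rights (w.take i)).length < (rights w).length + 1 := fun i =>
      Nat.lt_succ_of_le ((List.take_prefix i w).filterMap _).length_le
    obtain ⟨i, j, ij, c⟩ := Fintype.exists_ne_map_eq_of_card_lt (fun i : Fin (w.length + 1) =>
      ((w.take i).foldl δ s, (⟨_, l i⟩ : Fin _))) (by simp [lefts] at c ⊢; omega)
    simp only [Prod.mk.injEq, Fin.mk.injEq] at c
    wlog h : i < j generalizing i j
    · exact this j i ij.symm ⟨c.1.symm, c.2.symm⟩ (lt_of_le_of_ne (not_lt.1 h) ij.symm)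
    obtain ⟨t, ht⟩ := List.take_prefix_take_left (l := w) h.le
    have lt := congrArg List.length ht
    rw [← ht, List.foldl_append, rights_app, List.length_append] at c
    rw [← hD] at b
    refine b ⟨w, ⟨a', _, w.take i, _, ?_, rfl, t, w.drop j, rfl, ⟨c.1.symm,
      List.length_eq_zero_iff.1 (by omega), ?_⟩, trivial⟩, rfl⟩
    · rw [← List.append_assoc, ht, List.take_append_drop]
    · rintro rfl
      have := j.2
      have : i.val < j.val := h
      simp only [List.append_nil, List.length_take] at lt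
      omega
  obtain ⟨m, ⟨a, b⟩, c⟩ := Set.exists_min_image _ id fin ne
  refine ⟨m, ⟨?_, a⟩, ?_⟩
  · obtain ⟨w, a', rfl, rfl⟩ := (e _ _).1 a
    refine ⟨w, ⟨⟨a', b⟩, fun z => ?_⟩, rfl⟩
    obtain ⟨w', ⟨p, p'⟩, q, l⟩ := (m2 w ⟨a', b⟩).1 z
    exact (c _ ⟨(e _ _).2 ⟨w', p, rfl, q⟩, p'⟩).not_gt l
  · rintro _ ⟨⟨w, ⟨p, q⟩, rfl⟩, g'⟩
    refine le_antisymm (not_lt.1 fun l => q ((m2 w p).2 ?_)) (c _ ⟨g', p.2⟩)
    obtain ⟨w', a', rfl, b'⟩ := (e _ _).1 (df _ _ _ _ ((e _ _).2 ⟨w, p.1, rfl, rfl⟩) g' a)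
    exact ⟨w', ⟨a', b⟩, b', l⟩

end Pool.Agent.H.MP_7f7674_al
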