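import Pool.Agent.H.MP_7f7674_al.D
import Pool.Agent.H.MP_567c26_al.C

/-! The quasi-automatic semigroup attached to a rational equivalence relation. -/

namespace Pool.Agent.H.MP_7f7674_al

open Pool.Agent.Lib.helper21.Cone Pool.Agent.Lib.RegKit Pool.Agent.H.MP_567c26_al
  Pool.Agent.H.MP_e43f0d_lc Function Classical

variable {A : Type} (R : List A → List A → Prop)

abbrev Cn : Type := List A ⊕ {X : Set (List A) // ∃ u, R u u ∧ X = {v | R u v}}

noncomputable def sp : Option (Cn R) → Option A → Option (Cn R)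
  | some (.inl u), some a => some (.inl (u ++ [a]))
  | some (.inl u), none => if h : R u u then some (.inr ⟨_, u, h, rfl⟩) else none
  | _, _ => none

theorem sp_none (l : List (Option A)) : l.foldl (sp R) none = none := by
  induction l with
  | nil => rfl
  | cons a l ih => exact ih

theorem sp_some (u l : List A) : (l.map some).foldl (sp R) (some (.inl u)) = some (.inl (u ++ l)) := by
  induction l generalizing u with
  | nil => simp
  | cons a l ih => simp [sp, ih]

theorem sp_inv (l : List (Option A)) {c u} (h : l.foldl (sp R) c = some (.inl u)) :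
    ∃ u' l', c = some (.inl u') ∧ l = List.map some l' ∧ u = u' ++ l' := by
  induction l using List.reverseRecOn generalizing u with
  | nil => exact ⟨u, [], h, rfl, by simp⟩
  | append_singleton l a ih =>
    rw [List.foldl_append, List.foldl_cons, List.foldl_nil] at h
    rcases k : l.foldl (sp R) c with _ | u' | X <;> rcases a with _ | a <;> simp only [k, sp] at h <;>
      try cases h
    · split_ifs at h
      cases h
    · obtain ⟨u'', l', rfl, rfl, rfl⟩ := ih k
      exact ⟨u'', l' ++ [a], rfl, by simp, by simp⟩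

def SR : Type := (Option A × List (Option A)) ⊕ Option (Cn R)

noncomputable def sr : SR R → SR R → SR R
  | .inl a, .inl b => .inl (a.1, a.2 ++ b.1 :: b.2)
  | .inr c, .inl b => .inr ((b.1 :: b.2).foldl (sp R) c)
  | _, .inr _ => .inr none

noncomputable instance : Semigroup (SR R) where
  mul := sr R
  mul_assoc := by
    rintro (a | a) (b | b) (c | c) <;> change sr R (sr R _ _) _ = sr R _ (sr R _ _) <;>
      simp [sr, sp_none, sp]

def co (u : List A) : SR R := .inr (some (.inl u))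
def zr : SR R := .inr none
def tl (y : Option A) (l : List (Option A)) : SR R := .inl (y, l)

def gn : Option (Option A) → SR R
  | none => co R []
  | some y => tl R y []

noncomputable def ac : SR R → List (Option A) → SR R
  | .inl a, l => .inl (a.1, a.2 ++ l)
  | .inr c, l => .inr (l.foldl (sp R) c)

theorem ac_mu (l : List (Option A)) (e : SR R) :
    (e : WithOne (SR R)) * mu (gn R) (l.map some) = ac R e l := by
  induction l generalizing e with
  | nil => rcases e with e | e <;> simp [mu, ac]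
  | cons a l ih =>
    rw [List.map_cons, ← List.singleton_append, mu_append, mu_single, ← mul_assoc,
      ← WithOne.coe_mul, ih]
    rcases e with e | e
    · exact congrArg (fun l => ((tl R e.1 l : SR R) : WithOne (SR R))) (List.append_assoc _ _ _)
    · rfl

def wr (u : List A) (p : List (Option (Option A))) : List (Option (Option A)) :=
  none :: (u.map (fun a => some (some a)) ++ p)

def rp : SR R → List (Option (Option A)) → Prop
  | .inl a, w => w = (a.1 :: a.2).map some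
  | .inr none, w => w = [none, none]
  | .inr (some (.inl u)), w => w = wr u []
  | .inr (some (.inr X)), w => ∃ u ∈ X.1, w = wr u [some none]

variable {R} (sy : ∀ u v, R u v → R v u) (tr : ∀ u v x, R u v → R v x → R u x)
include sy tr

theorem sp_cl {u} {X : {X : Set (List A) // ∃ u, R u u ∧ X = {v | R u v}}} :
    sp R (some (.inl u)) none = some (.inr X) ↔ u ∈ X.1 := by
  obtain ⟨_, x, a, rfl⟩ := X
  simp only [sp]
  constructor
  · intro h
    split_ifs at h with g
    have := congrArg Subtype.val (Sum.inr.inj (Option.some.inj h))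
    exact (Set.ext_iff.1 this u).1 g
  · intro h
    rw [dif_pos (tr _ _ _ (sy _ _ h) h)]
    congr 3
    exact Set.ext fun v => ⟨tr _ _ _ h, tr _ _ _ (sy _ _ h)⟩

theorem mu_rp {e w} (h : rp R e w) : mu (gn R) w = e := by
  have k : ∀ a (l : List (Option A)), mu (gn R) (a :: l.map some) = ac R (gn R a) l := fun a l => by
    rw [← List.singleton_append, mu_append, mu_single, ac_mu]
  rcases e with e | _ | u | X
  · rw [h, List.map_cons, k]
    rfl
  · rw [h]
    rfl
  · rw [h, show wr u [] = none :: (u.map some).map some by simp [wr], k]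
    simp only [gn, co, ac, sp_some, List.nil_append]
  · obtain ⟨u, a, rfl⟩ := h
    rw [show wr u [some none] = none :: (u.map some ++ [none]).map some by simp [wr], k]
    simp only [gn, co, ac, sp_some, List.nil_append, List.foldl_append, List.foldl_cons,
      List.foldl_nil, (sp_cl sy tr).2 a]

theorem qa [Finite A] (h : IR R) : QA True (SR R) := by
  obtain ⟨n, ⟨ε⟩⟩ := Finite.exists_equiv_fin A
  let _ := Primcodable.ofEquiv _ ε
  have nr : NR fun _ => R := by
    obtain ⟨L, r, e⟩ := h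
    exact ⟨_, inferInstance, fun a => a.getLeft?.toList, fun a _ => a.getRight?.toList, _, r,
      fun _ => .const _, fun _ u v => by simp only [fl, fr]; exact e u v⟩
  have rat : ∀ {S : ℕ → List (Option (Option A)) → List (Option (Option A)) → Prop}, NR S →
      Rational (S 0) := fun ⟨_, _, f, g, L, a, _, c⟩ =>
    IR.rat (IR.congr (ir_of (L := (· ∈ L)) a f (g · 0)) (c 0))
  have nc : ∀ {S : ℕ → List A → List A → Prop}, NR S → ∀ p q,
      NR fun n u v => ∃ x y, S n x y ∧ u = wr x p ∧ v = wr y q := fun h p q =>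
    (((h.map (fun a => some (some a)) fun a => some (some a)).mul (nr_atom p (.const q))).pre
      [none] (.const [none])).congr fun _ _ _ =>
      ⟨fun ⟨x, y, a, b, c⟩ => ⟨_, _, ⟨_, _, _, _, ⟨x, y, a, rfl, rfl⟩, ⟨rfl, rfl⟩, rfl, rfl⟩, b, c⟩, by
        rintro ⟨_, _, ⟨_, _, _, _, ⟨x, y, a, rfl, rfl⟩, ⟨rfl, rfl⟩, rfl, rfl⟩, b, c⟩
        exact ⟨x, y, a, b, c⟩⟩
  have ex : ∀ e, ∃ w, rp R e w := by
    rintro (e | _ | u | ⟨_, u, a, rfl⟩)
    exacts [⟨_, rfl⟩, ⟨_, rfl⟩, ⟨_, rfl⟩, ⟨_, u, a, rfl⟩]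
  have pl : ∀ l : List (Option A), (l = [] ∨ ∃ a, l = [a]) →
      NR fun _ u v => ∃ e, ac R e l ≠ zr R ∧ rp R e u ∧ rp R (ac R e l) v := fun l hl => by
    suffices NR fun _ u v => ∃ c c', l.foldl (sp R) (some c) = some c' ∧ rp R (.inr (some c)) u ∧
        rp R (.inr (some c')) v by
      refine (((nr_id (U := (· ≠ [])) (reg_single []).compl l).map some some).or this).congr
        fun _ u v => ⟨?_, ?_⟩
      · rintro ⟨e | _ | c, a, b, d⟩
        · exact Or.inl ⟨e.1 :: e.2, _, ⟨nofun, rfl⟩, b, d⟩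
        · simp [ac, zr, sp_none] at a
        · rcases k : l.foldl (sp R) (some c) with _ | c'
          · simp [ac, zr, k] at a
          · exact Or.inr ⟨c, c', k, b, by simpa only [ac, k] using d⟩
      · rintro (⟨_ | ⟨a, u⟩, _, ⟨h, rfl⟩, rfl, rfl⟩ | ⟨c, c', k, b, d⟩)
        · exact (h rfl).elim
        · exact ⟨.inl (a, u), nofun, rfl, rfl⟩
        · exact ⟨.inr (some c), by simp only [ac, zr, k]; exact nofun, b, by simpa only [ac, k] using d⟩
    rcases hl with rfl | ⟨_ | a, rfl⟩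
    · refine ((nc (nr_id reg_true []) [] []).or (nc nr [some none] [some none])).congr
        fun _ u v => ⟨?_, ?_⟩
      · rintro ⟨u | ⟨_, x, a, rfl⟩, _, ⟨⟩, b, c⟩
        · exact Or.inl ⟨u, u, by simp, b, c⟩
        · obtain ⟨y, b, rfl⟩ := b
          obtain ⟨z, c, rfl⟩ := c
          exact Or.inr ⟨y, z, tr _ _ _ (sy _ _ b) c, rfl, rfl⟩
      · rintro (⟨x, _, ⟨-, rfl⟩, rfl, rfl⟩ | ⟨x, y, a, rfl, rfl⟩)
        · exact ⟨.inl x, _, rfl, rfl, by simp [rp]⟩
        · have := tr _ _ _ a (sy _ _ a)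
          exact ⟨.inr ⟨_, x, this, rfl⟩, _, rfl, ⟨x, this, rfl⟩, y, a, rfl⟩
    · refine (nc nr [] [some none]).congr fun _ u v => ⟨?_, ?_⟩
      · rintro ⟨u | X, c', k, b, c⟩
        · rcases c' with u' | ⟨_, x, a, rfl⟩
          · obtain ⟨_, l, -, e, -⟩ := sp_inv R _ k
            cases l <;> cases e
          · obtain ⟨z, c, rfl⟩ := c
            exact ⟨u, z, tr _ _ _ (sy _ _ ((sp_cl sy tr).1 k)) c, b, rfl⟩
        · cases k
      · rintro ⟨x, y, a, rfl, rfl⟩
        have := tr _ _ _ a (sy _ _ a)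
        exact ⟨.inl x, .inr ⟨_, x, this, rfl⟩, (sp_cl sy tr).2 this, rfl, y, a, rfl⟩
    · refine (nc (nr_id reg_true [a]) [] []).congr fun _ u v => ⟨?_, ?_⟩
      · rintro ⟨u | X, _, ⟨⟩, b, c⟩
        exact ⟨u, _, ⟨trivial, rfl⟩, b, c⟩
      · rintro ⟨x, _, ⟨-, rfl⟩, rfl, rfl⟩
        exact ⟨.inl x, _, rfl, rfl, rfl⟩
  have rL : Reg fun u => ∃ e, rp R e u := by
    obtain ⟨U, r, e⟩ := (pl [] (Or.inl rfl)).dom
    refine (r.or (P := U) (Q := (· = [none, none])) (reg_single _)).congr fun u => ?_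
    rw [← e 0]
    constructor
    · rintro (⟨_, e, -, a, -⟩ | rfl)
      exacts [⟨e, a⟩, ⟨zr R, rfl⟩]
    · rintro ⟨e | _ | e, a⟩
      exacts [Or.inl ⟨u, .inl e, nofun, a, by simpa [ac, rp] using a⟩, Or.inr a,
        Or.inl ⟨u, .inr (some e), nofun, a, a⟩]
  have key : ∀ l : List (Option A), (l = [] ∨ ∃ a, l = [a]) →
      Rational (Rel (gn R) (fun u => ∃ e, rp R e u) (l.map some)) := fun l hl => by
    obtain ⟨U, r, e⟩ := (pl l hl).dom
    refine rat (S := fun _ => _) (((pl l hl).or (nr_suf (fun _ => []) (rL.and r.not)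
      [none, none])).congr fun _ u v => ?_)
    have k : ∀ e u, rp R e u → mu (gn R) (u ++ l.map some) = ac R e l := fun e u h => by
      rw [mu_append, mu_rp sy tr h, ac_mu]
    rw [← e 0, List.flatMap_eq_nil_iff.2 fun _ _ => rfl, List.nil_append]
    constructor
    · rintro ⟨⟨e, a⟩, ⟨e', b⟩, q⟩
      rw [k e u a, mu_rp sy tr b] at q
      obtain rfl := WithOne.coe_inj.1 q
      by_cases z : ac R e l = zr R
      · refine Or.inr ⟨⟨⟨e, a⟩, ?_⟩, by rwa [z] at b⟩
        rintro ⟨_, e', a1, a2, -⟩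
        obtain rfl := WithOne.coe_inj.1 ((mu_rp sy tr a).symm.trans (mu_rp sy tr a2))
        exact a1 z
      · exact Or.inl ⟨e, z, a, b⟩
    · rintro (⟨e, -, a, b⟩ | ⟨⟨⟨e, a⟩, z⟩, rfl⟩)
      · exact ⟨⟨_, a⟩, ⟨_, b⟩, by rw [k e u a, mu_rp sy tr b]⟩
      · have : ac R e l = zr R := by_contra fun y => (ex _).elim fun w b => z ⟨w, e, y, a, b⟩
        exact ⟨⟨_, a⟩, ⟨zr R, rfl⟩, by rw [k e u a, this]; rfl⟩
  refine ⟨_, inferInstance, gn R, _, fun _ => ?_, rL, ⟨?_, fun s => (ex s).imp fun w h =>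
    ⟨⟨s, h⟩, mu_rp sy tr h⟩⟩, key [] (Or.inl rfl), ?_⟩
  · rintro (_ | a) (_ | b) h <;> cases h <;> rfl
  · rintro ⟨_ | _ | _ | _, h⟩ <;> simp [rp, wr] at h
  rintro (_ | a)
  · have k : ∀ e u, rp R e u → mu (gn R) (u ++ [none]) = zr R := fun e u h => by
      rw [mu_append, mu_rp sy tr h, mu_single, ← WithOne.coe_mul]
      rcases e with e | e <;> rfl
    refine rat (S := fun _ => _) ((nr_suf (fun _ => []) rL [none, none]).congr fun _ u v => ?_)
    rw [List.flatMap_eq_nil_iff.2 fun _ _ => rfl, List.nil_append]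
    constructor
    · rintro ⟨⟨e, a⟩, ⟨e', b⟩, q⟩
      rw [k e u a, mu_rp sy tr b] at q
      obtain rfl := WithOne.coe_inj.1 q
      exact ⟨⟨e, a⟩, b⟩
    · rintro ⟨⟨e, a⟩, rfl⟩
      exact ⟨⟨e, a⟩, ⟨zr R, rfl⟩, k e u a⟩
  · exact key [a] (Or.inr ⟨a, rfl⟩)

omit sy tr in
theorem mul_co {e e' : SR R} {u} (h : e * e' = co R u) : ∃ u' a l, e = co R u' ∧
    e' = tl R (some a) (List.map some l) ∧ u = u' ++ a :: l := by
  rcases e with e | e <;> rcases e' with ⟨y, t⟩ | e' <;> try cases h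
  obtain ⟨u', _ | ⟨a, l⟩, rfl, k, rfl⟩ := sp_inv R _ (Sum.inr.inj h) <;> cases k
  exact ⟨u', a, l, rfl, rfl, rfl⟩

theorem cs_of [Finite A] (h : IR R) (ha : Async False (SR R)) : ∃ C : Language A, C.IsRegular ∧
    (∀ c ∈ C, ∃ v, R c v) ∧ ∀ u, (∃ v, R u v) → ∃! c, c ∈ C ∧ R u c := by
  obtain ⟨B, _, g, L, -, -, o, -, hd⟩ := ha
  obtain ⟨b, hb⟩ : ∃ b, g b = tl R none [] := by
    obtain ⟨w, -, k⟩ := o.2 (tl R none [])
    rcases w.eq_nil_or_concat with rfl | ⟨w, b, rfl⟩
    · cases k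
    rcases mu_snoc (List.concat_eq_append ▸ k) with ⟨-, k⟩ | ⟨e, -, k⟩
    · exact ⟨b, k⟩
    · rcases e with e | e <;> rcases k' : g b with e' | e' <;> rw [k'] at k <;> try cases k
      simpa using (Prod.mk.inj (Sum.inl.inj k)).2
  let τ : B → List A := fun b => Sum.elim (fun a => (a.1 :: a.2).filterMap id)
    (fun c => (c.bind Sum.getLeft?).getD []) (g b)
  have hτ : ∀ (y : List B) u, mu g y = co R u → y.flatMap τ = u := fun y => by
    induction y using List.reverseRecOn with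
    | nil => exact nofun
    | append_singleton y c ih =>
      intro u k
      rcases mu_snoc k with ⟨rfl, k1⟩ | ⟨e, k1, k'⟩
      · simp only [List.nil_append, List.flatMap_singleton, τ, k1]
        rfl
      · obtain ⟨u', a, l, rfl, k2, rfl⟩ := mul_co k'
        rw [List.flatMap_append, ih _ k1, List.flatMap_singleton]
        simp only [τ, k2]
        exact congrArg (u' ++ a :: ·) (show List.filterMap id _ = l by simp [List.filterMap_map])
  have rc : Reg fun y => ∃ u, mu g y = co R u := by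
    refine reg_of_col (fun y => (y = [], ∃ u, mu g y = co R u)) fun y y' e w ⟨u, k⟩ => ?_
    obtain ⟨e1, e2⟩ := Prod.mk.inj e
    by_cases z : y = []
    · obtain rfl : y' = [] := e1 ▸ z
      exact ⟨u, z ▸ k⟩
    by_cases z' : w = []
    · subst z'
      exact (List.append_nil y').symm ▸ (e2 ▸ ⟨u, by simpa using k⟩ : ∃ u, mu g y' = co R u)
    obtain ⟨s, a⟩ := mu_ne g z
    obtain ⟨s', a'⟩ := mu_ne g z'
    rw [mu_append, a, a', ← WithOne.coe_mul, WithOne.coe_inj] at k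
    obtain ⟨u', c, l, rfl, rfl, -⟩ := mul_co k
    obtain ⟨u'', k'⟩ : ∃ u, mu g y' = co R u := e2 ▸ ⟨u', a⟩
    exact ⟨_, by
      rw [mu_append, k', a', ← WithOne.coe_mul]
      exact WithOne.coe_inj.2 (congrArg Sum.inr (sp_some R u'' (c :: l)))⟩
  have rd : Reg fun u => R u u := by
    obtain ⟨M, r, e⟩ := h
    exact (post_l r).congr fun c =>
      ⟨fun ⟨w, a, b⟩ => have := (e _ _).2 ⟨w, a, b, rfl⟩; tr _ _ _ this (sy _ _ this),
        fun g => ((e _ _).1 g).imp fun _ g => ⟨g.1, g.2.1⟩⟩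
  obtain ⟨M, m1, m2, m3⟩ := det_ir (hd b)
  have f1 : ∀ y : List B, (y.map some ++ [none]).flatMap Option.toList = y := by
    simp [List.flatMap_map]
  have f2 : ∀ y : List B, (y.map some ++ [none]).flatMap (fun o : Option B => (o.map τ).getD []) =
      y.flatMap τ := by simp [List.flatMap_map]
  obtain ⟨D, d1, d2, d3⟩ := sec (m1.and (pre_l (reg_pre Option.toList (rc.and (reg_pre τ rd)))))
    (fun _ _ _ _ _ a b => m2 _ _ _ _ _ a.1 b.1) (Φ := fun α β => ∃ y x u, α = y.map some ++ [none] ∧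
      β = x.map some ++ [none] ∧ Rel g L [b] y x ∧ mu g y = co R u ∧ R u u) (fun α β => ⟨by
        rintro ⟨y, x, u, rfl, rfl, a, c, d⟩
        obtain ⟨w, p, q⟩ := (m3 _ _).1 ⟨y, x, a, rfl, rfl⟩
        exact ⟨w, ⟨p, by rw [q.1, f1, hτ y u c]; exact ⟨⟨u, c⟩, d⟩⟩, q⟩, by
        rintro ⟨w, ⟨p, ⟨u, c⟩, d⟩, q⟩
        obtain ⟨y, x, a, rfl, rfl⟩ := (m3 _ _).2 ⟨w, p, q⟩
        rw [q.1, f1] at c d
        exact ⟨y, x, u, rfl, rfl, a, c, hτ y u c ▸ d⟩⟩) (by
      rintro _ _ _ _ ⟨y, x, u, rfl, rfl, a, -⟩ ⟨y1, x1, -, e, rfl, a1, -⟩ ⟨y2, x2, u2, rfl, e', a2, c⟩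
      obtain rfl := dol_pre ⟨[], (List.append_nil _).trans e⟩
      obtain rfl := dol_pre ⟨[], (List.append_nil _).trans e'⟩
      exact ⟨y2, x, u2, rfl, rfl, ⟨a2.1, a.2.1, a2.2.2.trans (a1.2.2.symm.trans a.2.2)⟩, c⟩)
  have cl : ∀ y u, mu g y = co R u →
      mu g (y ++ [b]) = ac R (co R u) [none] := fun y u k => by
    rw [mu_append, k, mu_single, hb, ← WithOne.coe_mul]
    rfl
  refine ⟨_, reg_post (fun o : Option B => (o.map τ).getD []) d1, ?_, fun u ⟨v, k⟩ => ?_⟩
  · rintro _ ⟨α, a, rfl⟩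
    obtain ⟨_, y, -, u, rfl, -, -, c, d⟩ := d2 α a
    exact ⟨u, by rwa [f2, hτ y u c]⟩
  have uu := tr _ _ _ k (sy _ _ k)
  obtain ⟨y, p, q⟩ := o.2 (co R u)
  obtain ⟨x, p', q'⟩ := o.2 (.inr (some (.inr ⟨_, u, uu, rfl⟩)))
  obtain ⟨_, ⟨a, y', _, u', rfl, e, a', c, d⟩, un⟩ := d3 (x.map some ++ [none]) ⟨_, y, x, u, rfl, rfl,
    ⟨p, p', by
      rw [cl y u q, q']
      exact WithOne.coe_inj.2 (congrArg Sum.inr ((sp_cl sy tr (X := ⟨_, u, uu, rfl⟩)).2 uu))⟩, q, uu⟩
  obtain rfl := dol_pre ⟨[], (List.append_nil _).trans e⟩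
  have := a'.2.2
  rw [cl y' u' c, q', WithOne.coe_inj] at this
  refine ⟨u', ⟨⟨_, a, by rw [f2, hτ y' u' c]⟩, (sp_cl sy tr).1 (Sum.inr.inj this)⟩, ?_⟩
  rintro _ ⟨⟨α, a1, rfl⟩, a2⟩
  obtain ⟨_, y2, _, u2, rfl, -, a3, c2, d2⟩ := d2 α a1
  rw [f2, hτ y2 u2 c2] at a2 ⊢
  have := un _ ⟨a1, y2, x, u2, rfl, rfl, ⟨a3.1, p', by
    rw [cl y2 u2 c2, q']
    exact WithOne.coe_inj.2 (congrArg Sum.inr ((sp_cl sy tr (X := ⟨_, u, uu, rfl⟩)).2 a2))⟩, c2, d2⟩
  obtain rfl := dol_pre ⟨[], (List.append_nil _).trans this⟩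
  rw [← hτ _ _ c, ← hτ _ _ c2]

end Pool.Agent.H.MP_7f7674_al
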